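import Pool.Agent.Q93.LT.Stm

/-!
# Project LT of helper93: job SOL
-/

set_option autoImplicit false

open MeasureTheory Set Filter Topology Real Finset
open scoped RealInnerProductSpace

namespace Pool.Agent.Q75.LTSol

open Pool.Helper490.Calib Pool.Agent.Q93.LT

variable {E : Type} [NormedAddCommGroup E] [InnerProductSpace ℝ E]

/-- The coefficient. -/
noncomputable def hc (u : ℝ → E) (lam : ℝ → ℝ) (x : ℝ) : ℝ :=
  π / 2 * ‖u x‖ ^ 2 * (cos (π * lam x) / sin (π * lam x))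

theorem rho_deriv {u : ℝ → E} {h x : ℝ} (hu : HasDerivAt u (h • u x) x) :
    HasDerivAt (fun y => ‖u y‖ ^ 2) (2 * h * ‖u x‖ ^ 2) x := by
  have h1 := hu.norm_sq
  refine h1.congr_deriv ?_
  rw [real_inner_smul_right, real_inner_self_eq_norm_sq]
  ring

theorem lam_deriv {u : ℝ → E} {Γ : ℝ → E →L[ℝ] E} {lam : ℝ → ℝ} (hc : Continuous u)
    (h2 : ∀ x, Γ x (u x) = lam x • u x) {h x : ℝ} (hG : HasDerivAt Γ (R u x) x)
    (hu : HasDerivAt u (h • u x) x) (h0 : u x ≠ 0) :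
    HasDerivAt lam (‖u x‖ ^ 2) x := by
  have h3 : HasDerivAt (fun y => Γ y (u y)) (R u x (u x) + Γ x (h • u x)) x := hG.clm_apply hu
  have h4 : HasDerivAt (fun y => ⟪Γ y (u y), u y⟫) (⟪Γ x (u x), h • u x⟫ +
      ⟪R u x (u x) + Γ x (h • u x), u x⟫) x := h3.inner ℝ hu
  have hn : ‖u x‖ ^ 2 ≠ 0 := pow_ne_zero 2 (norm_ne_zero_iff.2 h0)
  have h5 := h4.div (rho_deriv hu) hn
  have h6 : lam =ᶠ[𝓝 x] fun y => ⟪Γ y (u y), u y⟫ / ‖u y‖ ^ 2 := by
    have h7 : ∀ᶠ y in 𝓝 x, u y ≠ 0 := hc.continuousAt.eventually_ne h0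
    filter_upwards [h7] with y hy
    rw [h2, real_inner_smul_left, real_inner_self_eq_norm_sq]
    have : ‖u y‖ ^ 2 ≠ 0 := pow_ne_zero 2 (norm_ne_zero_iff.2 hy)
    field_simp
  refine (h5.congr_of_eventuallyEq h6).congr_deriv ?_
  have hR : R u x (u x) = ⟪u x, u x⟫ • u x := rfl
  simp only [inner_add_left, hR, map_smul, h2, real_inner_smul_left, real_inner_smul_right,
    real_inner_self_eq_norm_sq]
  field_simp
  ring

theorem dir_deriv {u : ℝ → E} {h x : ℝ} (hu : HasDerivAt u (h • u x) x) (h0 : u x ≠ 0) :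
    HasDerivAt (fun y => (‖u y‖)⁻¹ • u y) 0 x := by
  have hn : ‖u x‖ ≠ 0 := norm_ne_zero_iff.2 h0
  have h1 : HasDerivAt (fun y => √(‖u y‖ ^ 2)) (2 * h * ‖u x‖ ^ 2 / (2 * √(‖u x‖ ^ 2))) x :=
    (rho_deriv hu).sqrt (pow_ne_zero 2 hn)
  have h2 : (fun y => √(‖u y‖ ^ 2)) = fun y => ‖u y‖ := by
    ext y; exact Real.sqrt_sq (norm_nonneg _)
  rw [h2, Real.sqrt_sq (norm_nonneg _)] at h1
  have h3 := (h1.inv hn).smul hu
  refine h3.congr_deriv ?_
  rw [smul_smul, ← add_smul]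
  change ((‖u x‖)⁻¹ * h + -(2 * h * ‖u x‖ ^ 2 / (2 * ‖u x‖)) / ‖u x‖ ^ 2) • u x = 0
  have : (‖u x‖)⁻¹ * h + -(2 * h * ‖u x‖ ^ 2 / (2 * ‖u x‖)) / ‖u x‖ ^ 2 = 0 := by
    field_simp
    ring
  rw [this, zero_smul]

theorem cc_deriv {u : ℝ → E} {lam : ℝ → ℝ} {x : ℝ} (hs : sin (π * lam x) ≠ 0)
    (hu : HasDerivAt u ((π / 2 * ‖u x‖ ^ 2 * (cos (π * lam x) / sin (π * lam x))) • u x) x)
    (hl : HasDerivAt lam (‖u x‖ ^ 2) x) :
    HasDerivAt (fun y => ‖u y‖ ^ 2 / sin (π * lam y)) 0 x := by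
  have h1 : HasDerivAt (fun y => sin (π * lam y)) (cos (π * lam x) * (π * ‖u x‖ ^ 2)) x :=
    (hl.const_mul π).sin
  have h2 := (rho_deriv hu).div h1 hs
  refine h2.congr_deriv ?_
  field_simp
  ring

omit [InnerProductSpace ℝ E] in
theorem tan_deriv {u : ℝ → E} {lam : ℝ → ℝ} {x c : ℝ} (h0 : 0 < lam x) (h1 : lam x < 1)
    (hl : HasDerivAt lam (‖u x‖ ^ 2) x) (hcc : ‖u x‖ ^ 2 / sin (π * lam x) = c) :
    HasDerivAt (fun y => tan (π * lam y / 2) * exp (-(π * c * y))) 0 x := by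
  have hpi := Real.pi_pos
  have hθ0 : 0 < π * lam x / 2 := by positivity
  have hθ1 : π * lam x / 2 < π / 2 := by nlinarith
  have hcos : 0 < cos (π * lam x / 2) := Real.cos_pos_of_mem_Ioo ⟨by linarith, hθ1⟩
  have hsin : 0 < sin (π * lam x / 2) := Real.sin_pos_of_pos_of_lt_pi hθ0 (by linarith)
  have h2 : HasDerivAt (fun y => π * lam y / 2) (π * ‖u x‖ ^ 2 / 2) x := (hl.const_mul π).div_const 2
  have h3 : HasDerivAt (fun y => tan (π * lam y / 2)) (1 / cos (π * lam x / 2) ^ 2 * (π * ‖u x‖ ^ 2 / 2)) x :=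
    HasDerivAt.comp (h₂ := tan) x (Real.hasDerivAt_tan hcos.ne') h2
  have h4 : HasDerivAt (fun y => exp (-(π * c * y))) (exp (-(π * c * x)) * (-(π * c * 1))) x :=
    (((hasDerivAt_id x).const_mul (π * c)).neg).exp
  refine (h3.mul h4).congr_deriv ?_
  have h5 : sin (π * lam x) = 2 * sin (π * lam x / 2) * cos (π * lam x / 2) := by
    rw [← Real.sin_two_mul]; congr 1; ring
  rw [h5] at hcc
  rw [← hcc, Real.tan_eq_sin_div_cos]
  field_simp
  ring

theorem sol : S_SOL := by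
  intro E _ _ _ u Γ lam hcont h1 h2 h3 h4 ⟨x₁, hx₁⟩
  have hpi := Real.pi_pos
  have hU : IsOpen {x | u x ≠ 0} := isOpen_ne_fun hcont continuous_const
  have hlam : ∀ x, u x ≠ 0 → HasDerivAt lam (‖u x‖ ^ 2) x := fun x hx =>
    lam_deriv hcont h2 (h1 x) (h4 x hx) hx
  have hsin : ∀ x, u x ≠ 0 → 0 < sin (π * lam x) := fun x hx =>
    Real.sin_pos_of_pos_of_lt_pi (by have := (h3 x hx).1; positivity)
      (by have := (h3 x hx).2; nlinarith)
  -- local constancy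
  have hconst : ∀ {F : Type} [NormedAddCommGroup F] [NormedSpace ℝ F] (f : ℝ → F) (J : Set ℝ),
      IsOpen J → IsPreconnected J → (∀ y ∈ J, HasDerivAt f 0 y) → ∀ y ∈ J, ∀ z ∈ J, f y = f z := by
    intro F _ _ f J hJ hJ' hf y hy z hz
    exact hJ.is_const_of_deriv_eq_zero hJ' (fun w hw => (hf w hw).differentiableAt.differentiableWithinAt)
      (fun w hw => (hf w hw).deriv) hy hz
  obtain ⟨c, hcdef⟩ : ∃ c : ℝ, c = ‖u x₁‖ ^ 2 / sin (π * lam x₁) := ⟨_, rfl⟩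
  obtain ⟨e, hedef⟩ : ∃ e : E, e = (‖u x₁‖)⁻¹ • u x₁ := ⟨_, rfl⟩
  obtain ⟨K, hKdef⟩ : ∃ K : ℝ, K = tan (π * lam x₁ / 2) * exp (-(π * c * x₁)) := ⟨_, rfl⟩
  have hc0 : 0 < c := by
    rw [hcdef]
    have := hsin x₁ hx₁
    have := norm_pos_iff.2 hx₁
    positivity
  have hK0 : 0 < K := by
    rw [hKdef]
    refine mul_pos (Real.tan_pos_of_pos_of_lt_pi_div_two ?_ ?_) (exp_pos _)
    · have := (h3 x₁ hx₁).1; positivity
    · have := (h3 x₁ hx₁).2; nlinarith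
  obtain ⟨A, hA⟩ : ∃ A : Set ℝ, A = {x | u x ≠ 0 ∧ ‖u x‖ ^ 2 / sin (π * lam x) = c ∧
    (‖u x‖)⁻¹ • u x = e ∧ tan (π * lam x / 2) * exp (-(π * c * x)) = K} := ⟨_, rfl⟩
  have hmem : ∀ x, x ∈ A ↔ (u x ≠ 0 ∧ ‖u x‖ ^ 2 / sin (π * lam x) = c ∧
    (‖u x‖)⁻¹ • u x = e ∧ tan (π * lam x / 2) * exp (-(π * c * x)) = K) := by
    intro x; rw [hA]; rfl
  -- the local step
  have hloc : ∀ J : Set ℝ, IsOpen J → IsPreconnected J → (∀ y ∈ J, u y ≠ 0) → ∀ y ∈ J, y ∈ A →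
      ∀ z ∈ J, z ∈ A := by
    intro J hJ hJ' hJu y hy hyA z hz
    rw [hmem] at hyA ⊢
    have g1 : ∀ w ∈ J, ‖u w‖ ^ 2 / sin (π * lam w) = c := by
      intro w hw
      rw [← hyA.2.1]
      exact hconst (fun y => ‖u y‖ ^ 2 / sin (π * lam y)) J hJ hJ' (fun v hv =>
        cc_deriv (hsin v (hJu v hv)).ne' (h4 v (hJu v hv)) (hlam v (hJu v hv))) w hw y hy
    refine ⟨hJu z hz, g1 z hz, ?_, ?_⟩
    · rw [← hyA.2.2.1]
      exact hconst (fun y => (‖u y‖)⁻¹ • u y) J hJ hJ' (fun v hv =>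
        dir_deriv (h4 v (hJu v hv)) (hJu v hv)) z hz y hy
    · rw [← hyA.2.2.2]
      exact hconst (fun y => tan (π * lam y / 2) * exp (-(π * c * y))) J hJ hJ' (fun v hv =>
        tan_deriv (h3 v (hJu v hv)).1 (h3 v (hJu v hv)).2 (hlam v (hJu v hv)) (g1 v hv)) z hz y hy
  obtain ⟨a, ha⟩ : ∃ a : ℝ, exp (-(π * c * a)) = K := by
    refine ⟨-(log K) / (π * c), ?_⟩
    have : -(π * c * (-(log K) / (π * c))) = log K := by field_simp
    rw [this, Real.exp_log hK0]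
  have hform : ∀ x ∈ A, u x = √(π * c / (π * cosh (π * c * (x - a)))) • e := by
    intro x hx
    rw [hmem] at hx
    obtain ⟨hx0, hxc, hxe, hxt⟩ := hx
    have hn : ‖u x‖ ≠ 0 := norm_ne_zero_iff.2 hx0
    have hnp : 0 < ‖u x‖ := norm_pos_iff.2 hx0
    have hs := hsin x hx0
    have h5 : ‖u x‖ ^ 2 = c * sin (π * lam x) := by
      rw [← hxc]; field_simp
    obtain ⟨X, hX⟩ : ∃ X : ℝ, X = exp (π * c * (x - a)) := ⟨_, rfl⟩
    have hXpos : 0 < X := by rw [hX]; exact exp_pos _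
    have htan : tan (π * lam x / 2) = X := by
      have h6 : tan (π * lam x / 2) = K * exp (π * c * x) := by
        rw [← hxt, mul_assoc, ← exp_add]; simp
      rw [h6, ← ha, ← exp_add, hX]
      congr 1; ring
    have hθ0 : 0 < π * lam x / 2 := by have := (h3 x hx0).1; positivity
    have hθ1 : π * lam x / 2 < π / 2 := by have := (h3 x hx0).2; nlinarith
    have hcos : 0 < cos (π * lam x / 2) := Real.cos_pos_of_mem_Ioo ⟨by linarith, hθ1⟩
    have h7 : sin (π * lam x) = 2 * X / (1 + X ^ 2) := by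
      have h8 : sin (π * lam x) = 2 * sin (π * lam x / 2) * cos (π * lam x / 2) := by
        rw [← Real.sin_two_mul]; congr 1; ring
      rw [h8, ← htan, Real.tan_eq_sin_div_cos]
      have h9 := Real.sin_sq_add_cos_sq (π * lam x / 2)
      have h10 : 1 + (sin (π * lam x / 2) / cos (π * lam x / 2)) ^ 2 =
          1 / cos (π * lam x / 2) ^ 2 := by
        rw [div_pow, eq_div_iff (pow_ne_zero 2 hcos.ne')]
        field_simp
        linarith
      rw [h10]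
      field_simp
    have h11 : cosh (π * c * (x - a)) = (X + X⁻¹) / 2 := by
      rw [Real.cosh_eq, hX, Real.exp_neg]
    have h12 : π * c / (π * cosh (π * c * (x - a))) = ‖u x‖ ^ 2 := by
      rw [h5, h7, h11]
      field_simp
      ring
    rw [h12, Real.sqrt_sq hnp.le, ← hxe, smul_smul, mul_inv_cancel₀ hn, one_smul]
  have hcl : IsClosed A := by
    rw [← closure_subset_iff_isClosed]
    intro x hx
    -- u x is given by the formula
    have hclosed : IsClosed {x | u x = √(π * c / (π * cosh (π * c * (x - a)))) • e} := by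
      refine isClosed_eq hcont ?_
      refine Continuous.smul ?_ continuous_const
      refine Real.continuous_sqrt.comp ?_
      refine continuous_const.div (by fun_prop) (fun y => ?_)
      have := cosh_pos (π * c * (y - a))
      positivity
    have hx1 : u x = √(π * c / (π * cosh (π * c * (x - a)))) • e :=
      (closure_minimal (fun y hy => hform y hy) hclosed) hx
    have he1 : e ≠ 0 := by
      rw [hedef]
      exact smul_ne_zero (inv_ne_zero (norm_ne_zero_iff.2 hx₁)) hx₁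
    have hx2 : u x ≠ 0 := by
      rw [hx1]
      refine smul_ne_zero ?_ he1
      have := cosh_pos (π * c * (x - a))
      positivity
    obtain ⟨ε, hε, hball⟩ := Metric.isOpen_iff.1 hU x hx2
    obtain ⟨y, hy1, hy2⟩ := Metric.mem_closure_iff.1 hx ε hε
    exact hloc (Metric.ball x ε) Metric.isOpen_ball (convex_ball x ε).isPreconnected
      (fun z hz => hball hz) y (by rw [Metric.mem_ball, dist_comm]; exact hy2) hy1 x
      (Metric.mem_ball_self hε)
  have hop : IsOpen A := by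
    rw [Metric.isOpen_iff]
    intro x hx
    obtain ⟨ε, hε, hball⟩ := Metric.isOpen_iff.1 hU x ((hmem x).1 hx).1
    exact ⟨ε, hε, fun y hy => hloc (Metric.ball x ε) Metric.isOpen_ball
      (convex_ball x ε).isPreconnected (fun z hz => hball hz) x (Metric.mem_ball_self hε) hx y hy⟩
  have hA1 : x₁ ∈ A := (hmem x₁).2 ⟨hx₁, hcdef.symm, hedef.symm, hKdef.symm⟩
  have huniv : A = Set.univ := IsClopen.eq_univ ⟨hcl, hop⟩ ⟨x₁, hA1⟩
  refine ⟨e, π * c, a, ?_, by positivity, fun x => hform x (by rw [huniv]; exact Set.mem_univ x)⟩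
  rw [hedef, norm_smul, norm_inv, norm_norm, inv_mul_cancel₀ (norm_ne_zero_iff.2 hx₁)]

end Pool.Agent.Q75.LTSol
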